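import Pool.Agent.H626R2.Orb.OTM

/-!
# Identity testing for affine orbits of constant-width read-once programs

`ACIT` is the set of the codes of the well-formed arithmetic circuits computing the zero
polynomial. For every fixed width `w` and every fixed exponent `c` there is a deterministic
polynomial-time machine that accepts all of `ACIT` and rejects all codes of circuits that compute
a polynomial with `OrbitTame w (s ^ c)`, where `s` is the length of the code.

The class consists of the polynomials of polynomial degree and polynomial coefficient length which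
divide a nonzero product of polynomials `u ⬝ M₁(ℓ₁) ⬝ M₂(ℓ₂) ⋯ M_m(ℓ_m) ⬝ v`, where the `M_k` are
`w × w` matrices of univariate polynomials and `ℓ₁, …, ℓ_m` are affine forms with linearly
independent linear parts: the orbits of read-once oblivious algebraic branching programs of
width `w`, in any order of the variables, under the affine group.

The proof (modules `Pool.Agent.H626R2.Orb`) shows that such a polynomial does not vanish
identically on `x_i = ∑_{t < T} y_t z_t ^ i`, where `T` depends only on `w`. It adds to the
decoupling theorem of helper530 (`Pool.Agent.H530R2`) three new ingredients: one seed pair gives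
the whole gradient (`hy_grad`), a Wronskian argument frees a variable at a cost bounded by the
number of functions of this variable (`wron`, `hy_free`), and the minors that occur involve only
boundedly many functions of each variable (`det_mem_InV`). The decision procedure is that of
helper531 (`Pool.Agent.H531R2`).
-/

set_option autoImplicit false

namespace Pool.Agent.Results.MP_b2b50d_lc.AffineOrbits

open Pool.Agent.NPC Pool.Agent.H531R2 MvPolynomial

/-- The affine form with coefficients `a` and constant term `b`. -/
noncomputable def aff (a : ℕ →₀ ℂ) (b : ℂ) : MvPolynomial ℕ ℂ :=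
  C b + a.sum fun k c => C c * X k

/-- `g = u ⬝ (M 0)(ℓ 0) ⬝ (M 1)(ℓ 1) ⋯ (M (m-1))(ℓ (m-1)) ⬝ v` for some `m`, constant vectors `u`
and `v`, `w × w` matrices `M k` of univariate polynomials of arbitrary degree, and affine forms
`ℓ k` with linearly independent linear parts. -/
def AffProg (w : ℕ) (g : MvPolynomial ℕ ℂ) : Prop :=
  ∃ (m : ℕ) (M : Fin m → Matrix (Fin w) (Fin w) (Polynomial ℂ)) (u v : Fin w → ℂ)
    (A : Fin m → ℕ →₀ ℂ) (b : Fin m → ℂ),
    LinearIndependent ℂ A ∧
    g = ∑ r, ∑ s, C (u r) * (List.ofFn fun k : Fin m =>
      (M k).map (Polynomial.aeval (aff (A k) (b k)))).prod r s * C (v s)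

/-- `f` has total degree at most `n`, the absolute values of its coefficients add up to at most
`2 ^ n`, and `f` divides over the complex numbers a nonzero product of any number of polynomials
with `AffProg w`. -/
def OrbitTame (w n : ℕ) (f : MvPolynomial ℕ ℤ) : Prop :=
  f.totalDegree ≤ n ∧ ∑ μ ∈ f.support, (coeff μ f).natAbs ≤ 2 ^ n ∧
    ∃ (r : ℕ) (g : Fin r → MvPolynomial ℕ ℂ), (∀ j, AffProg w (g j)) ∧
      ∏ j, g j ≠ 0 ∧ map (Int.castRingHom ℂ) f ∣ ∏ j, g j

theorem result (w c : ℕ) : ∃ A : List Bool → List Bool, PolyTime A ∧
    (∀ x, A x = [true] ∨ A x = [false]) ∧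
    (∀ x ∈ ACIT, A x = [true]) ∧
    (∀ x, (∀ C : List Gate, WF C → bits C ≠ x) → A x = [false]) ∧
    ∀ C : List Gate, OrbitTame w ((bits C).length ^ c) (cpoly C) → A (bits C) = [false] := by
  obtain ⟨A, h1, h2, h3, h4, h5⟩ := Pool.Agent.H626R2.Orb.main_orb w none c
  refine ⟨A, h1, h2, h3, h4, fun C hC => h5 C ?_⟩
  obtain ⟨hd, hn, r, g, hg, hg0, hdvd⟩ := hC
  refine ⟨hd, hn, r, g, fun j => ?_, hg0, hdvd⟩
  obtain ⟨m, M, u, v, B, b, hB, hgj⟩ := hg j
  exact ⟨m, M, u, v, B, b, hB, fun δ hδ => by simp at hδ, hgj⟩

end Pool.Agent.Results.MP_b2b50d_lc.AffineOrbits
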