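import Pool.Agent.H626R2.PHit

/-!
# Identity testing for circuits of exponential degree: power products of affine linear forms
in unboundedly many variables, of bounded transcendence degree

`ACIT` is the set of the codes of the well-formed arithmetic circuits computing the zero
polynomial. For every fixed `k` and every fixed exponent `c` there is a deterministic
polynomial-time machine that accepts all of `ACIT` and rejects all codes of circuits that compute
a polynomial with `TameTr k (s ^ c)`, where `s` is the length of the code.

The class contains all depth-3 circuits `∑_{i ≤ k} c_i ∏_j ℓ_j ^ e_ij` of top fan-in `k` with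
binary (exponentially large) exponents and any number of variables and forms (see
`fewTr_of_topFanin` below), all divisors of products of such polynomials, and all rational
combinations of `n` power products of affine linear forms with transcendence degree at most `k`.

The decision procedure and the p-adic estimate are those of `Pool.Agent.H531R2` (helper531); the
new ingredients are the Jacobian criterion (`PJac`), the theorem that the substitution
`x_i = ∑_{t ≤ k + 1} y_t z_t ^ i` preserves algebraic independence of at most `k` power products of
affine linear forms (`PVand`, `PLoc`, `PTrans`), and the saturation argument (`PCore`, `PHit`).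
-/

set_option autoImplicit false

namespace Pool.Agent.Results.MP_b2b50d_lc.BoundedTrdeg

open Pool.Agent.NPC Pool.Agent.H531R2 Pool.Agent.H626R2 MvPolynomial

theorem result (k c : ℕ) : ∃ A : List Bool → List Bool, PolyTime A ∧
    (∀ x, A x = [true] ∨ A x = [false]) ∧
    (∀ x ∈ ACIT, A x = [true]) ∧
    (∀ x, (∀ C : List Gate, WF C → bits C ≠ x) → A x = [false]) ∧
    ∀ C : List Gate, TameTr k ((bits C).length ^ c) (cpoly C) → A (bits C) = [false] :=
  main_theoremTr k c

/-- Remark: polynomials computed by depth-3 circuits of top fan-in at most `k` with powers are in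
the class. -/
theorem fewTr_of_topFanin {k n : ℕ} (S : Finset ℕ) (a0 : Fin n → ℤ) (a : Fin n → ℕ → ℤ)
    (e : Fin n → Fin n → ℕ) (c : Fin n → ℚ) (hS : S.card ≤ n) (h0 : ∀ j, (a0 j).natAbs ≤ 2 ^ n)
    (ha : ∀ j i, (a j i).natAbs ≤ 2 ^ n) (he : ∀ i j, e i j ≤ 2 ^ n)
    (hc : ∀ i : Fin n, k ≤ i.1 → c i = 0) :
    FewTr k n (∑ i, C (c i) * ∏ j, aff S (a0 j : ℚ) (fun l => (a j l : ℚ)) ^ e i j) := by
  classical
  refine ⟨S, a0, a, fun i j => if i.1 < k then e i j else 0, c, hS, h0, ha, ?_, ?_, ?_⟩
  · intro i j
    by_cases hi : i.1 < k
    · simp only [if_pos hi]
      exact he i j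
    · simp only [if_neg hi]
      exact Nat.zero_le _
  · intro u hu
    have hinj : Function.Injective u := by
      intro x y hxy
      apply hu.injective
      simp only [hxy]
    obtain ⟨b, hb⟩ : ∃ b, k ≤ (u b).1 := by
      by_contra hcon
      push Not at hcon
      have h1 := Fintype.card_le_of_injective (fun b => (⟨(u b).1, hcon b⟩ : Fin k))
        (fun x y hxy => hinj (Fin.ext (by simpa using hxy)))
      simp at h1
    have h2 := (algebraicIndependent_iff.1 hu) (X b - 1) (by
      rw [map_sub, aeval_X, map_one, sub_eq_zero]
      apply Finset.prod_eq_one
      intro j _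
      simp only [if_neg (not_lt.2 hb), pow_zero])
    have h3 := congrArg (eval (fun _ => (0 : ℚ))) h2
    simp at h3
  · refine Finset.sum_congr rfl fun i _ => ?_
    by_cases hi : i.1 < k
    · simp only [if_pos hi]
    · rw [hc i (not_lt.1 hi)]
      simp

end Pool.Agent.Results.MP_b2b50d_lc.BoundedTrdeg
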