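import Pool.Agent.H626R2.Clu.Hit

/-!
# Identity testing for circuits of exponential degree: clusters of power products of affine
linear forms, unbounded top fan-in

`ACIT` is the set of the codes of the well-formed arithmetic circuits computing the zero
polynomial. For all fixed `k`, `r` and every fixed exponent `c` there is a deterministic
polynomial-time machine that accepts all of `ACIT` and rejects all codes of circuits that compute
a polynomial with `TameCl k r (s ^ c)`, where `s` is the length of the code.

The class contains all sums of unboundedly many power products `c_i ∏_j ℓ_j ^ e_ij` of affine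
linear forms whose (exponentially large) exponent vectors lie in `k` balls of radius `r` for the
`ℓ¹`-distance: depth-3 circuits of top fan-in `k` (`r = 0`), and sums of arbitrarily many products
each of which omits at most `r` factors of one fixed product (see `fewCl_of_omitted` below), such
as the elementary symmetric polynomial of degree `n - r` of `n` affine forms.

The theorem behind it is `Clu.clusters`: no nonzero polynomial of this kind is killed by
`x_i = ∑_{t ≤ T} y_t z_t ^ i` with `T = 2 ^ k (r + 1) + max (2 ^ k r) 1 + k - 1`. The decision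
procedure and the p-adic estimate are those of `Pool.Agent.H531R2` (helper531).
-/

set_option autoImplicit false

namespace Pool.Agent.Results.MP_b2b50d_lc.Clusters

open Pool.Agent.NPC Pool.Agent.H531R2 Pool.Agent.H626R2 Pool.Agent.H626R2.Clu MvPolynomial

theorem result (k r c : ℕ) : ∃ A : List Bool → List Bool, PolyTime A ∧
    (∀ x, A x = [true] ∨ A x = [false]) ∧
    (∀ x ∈ ACIT, A x = [true]) ∧
    (∀ x, (∀ C : List Gate, WF C → bits C ≠ x) → A x = [false]) ∧
    ∀ C : List Gate, TameCl k r ((bits C).length ^ c) (cpoly C) → A (bits C) = [false] :=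
  main_theoremCl k r c

/-- Remark: sums of `n` products each of which omits at most `r` factors of the fixed product
`∏ ℓ_j ^ m_j` are in the class. -/
theorem fewCl_of_omitted {r n : ℕ} (S : Finset ℕ) (a0 : Fin n → ℤ) (a : Fin n → ℕ → ℤ)
    (m : Fin n → ℕ) (D : Fin n → Finset (Fin n)) (c : Fin n → ℚ) (hS : S.card ≤ n)
    (h0 : ∀ j, (a0 j).natAbs ≤ 2 ^ n) (ha : ∀ j i, (a j i).natAbs ≤ 2 ^ n)
    (hm : ∀ j, m j ≤ 2 ^ n) (hD : ∀ i, (D i).card ≤ r) :
    FewCl 1 r n (∑ i, C (c i) * ∏ j, aff S (a0 j : ℚ) (fun l => (a j l : ℚ)) ^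
      (if j ∈ D i then m j - 1 else m j)) := by
  classical
  refine ⟨S, a0, a, fun i j => if j ∈ D i then m j - 1 else m j, c, fun _ => m, fun _ => 0, hS,
    h0, ha, ?_, ?_, rfl⟩
  · intro i j
    have := hm j
    by_cases h : j ∈ D i
    · simp only [if_pos h]; omega
    · simp only [if_neg h]; exact this
  · intro i
    refine le_trans ?_ (hD i)
    have h1 : (D i).card = ∑ j : Fin n, if j ∈ D i then 1 else 0 := by
      rw [Finset.sum_boole]
      simp
    rw [h1]
    refine Finset.sum_le_sum fun j _ => ?_
    by_cases h : j ∈ D i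
    · simp only [if_pos h]; omega
    · simp only [if_neg h]; omega

/-- Remark: polynomials computed by depth-3 circuits of top fan-in at most `k` with powers are in
the class. -/
theorem fewCl_of_topFanin {k n : ℕ} (hk : 0 < k) (hkn : k ≤ n) (S : Finset ℕ) (a0 : Fin n → ℤ)
    (a : Fin n → ℕ → ℤ) (e : Fin k → Fin n → ℕ) (c : Fin k → ℚ) (hS : S.card ≤ n)
    (h0 : ∀ j, (a0 j).natAbs ≤ 2 ^ n) (ha : ∀ j i, (a j i).natAbs ≤ 2 ^ n)
    (he : ∀ i j, e i j ≤ 2 ^ n) :
    FewCl k 0 n (∑ i, C (c i) * ∏ j, aff S (a0 j : ℚ) (fun l => (a j l : ℚ)) ^ e i j) := by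
  classical
  obtain ⟨n', rfl⟩ : ∃ n', n = k + n' := ⟨n - k, by omega⟩
  let g : Fin (k + n') → Fin k := fun i => Fin.addCases (motive := fun _ => Fin k)
    (fun i => i) (fun _ => ⟨0, hk⟩) i
  refine ⟨S, a0, a, fun i => e (g i), fun i => Fin.addCases (motive := fun _ => ℚ) c
    (fun _ => 0) i, e, g, hS, h0, ha, fun i j => he _ j, fun i => by simp, ?_⟩
  rw [Fin.sum_univ_add]
  simp [g]

end Pool.Agent.Results.MP_b2b50d_lc.Clusters
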