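import Pool.Agent.H531R2.Final

/-!
# Identity testing for circuits of exponential degree: combinations of power products

`ACIT` is the set of the codes of the well-formed arithmetic circuits computing the zero
polynomial. For every fixed number `v` and every fixed exponent `k` there is a deterministic
polynomial-time machine that accepts all of `ACIT` and rejects all codes of circuits that compute
a polynomial with `Tame v (s ^ k)`, where `s` is the length of the code.
-/

set_option autoImplicit false

namespace Pool.Agent.Results.MP_b2b50d_lc.PowerProducts

open Pool.Agent.NPC Pool.Agent.H531R2

theorem result (v k : ℕ) : ∃ A : List Bool → List Bool, PolyTime A ∧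
    (∀ x, A x = [true] ∨ A x = [false]) ∧
    (∀ x ∈ ACIT, A x = [true]) ∧
    (∀ x, (∀ C : List Gate, WF C → bits C ≠ x) → A x = [false]) ∧
    ∀ C : List Gate, Tame v ((bits C).length ^ k) (cpoly C) → A (bits C) = [false] :=
  main_theorem v k

end Pool.Agent.Results.MP_b2b50d_lc.PowerProducts
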